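import Mathlib
import Pool.Agent.TCA.Defs

/-!
# TCS: superisolated and Lê-Yomdin singularities over quasi-homogeneous points of the tangent cone: definitions  (doc NC/SI_59)
-/

set_option autoImplicit false

namespace Pool.Agent.TCS

open MvPolynomial

/-- the saturation of an ideal at the origin -/
def sat {m : ℕ} (J : Ideal (MvPolynomial (Fin m) ℂ)) : Ideal (MvPolynomial (Fin m) ℂ) where
  carrier := {x | ∃ s, constantCoeff s ≠ 0 ∧ s * x ∈ J}
  add_mem' := by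
    rintro x y ⟨s, hs, hx⟩ ⟨t, ht, hy⟩
    refine ⟨s * t, by rw [map_mul]; exact mul_ne_zero hs ht, ?_⟩
    have : s * t * (x + y) = t * (s * x) + s * (t * y) := by ring
    rw [this]
    exact J.add_mem (J.mul_mem_left _ hx) (J.mul_mem_left _ hy)
  zero_mem' := ⟨1, by rw [map_one]; exact one_ne_zero, by rw [mul_zero]; exact J.zero_mem⟩
  smul_mem' := by
    rintro c x ⟨s, hs, hx⟩
    refine ⟨s, hs, ?_⟩
    have : s * (c • x) = c * (s * x) := by rw [smul_eq_mul]; ring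
    rw [this]
    exact J.mul_mem_left _ hx

theorem mem_sat {m : ℕ} {J : Ideal (MvPolynomial (Fin m) ℂ)} {x : MvPolynomial (Fin m) ℂ} :
    x ∈ sat J ↔ ∃ s, constantCoeff s ≠ 0 ∧ s * x ∈ J := Iff.rfl

theorem le_sat {m : ℕ} {J : Ideal (MvPolynomial (Fin m) ℂ)} {x : MvPolynomial (Fin m) ℂ} (hx : x ∈ J) : x ∈ sat J :=
  ⟨1, by rw [map_one]; exact one_ne_zero, by rwa [one_mul]⟩

theorem sat_sat {m : ℕ} {J : Ideal (MvPolynomial (Fin m) ℂ)} (s x : MvPolynomial (Fin m) ℂ) (hs : constantCoeff s ≠ 0) (h : s * x ∈ sat J) :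
    x ∈ sat J := by
  obtain ⟨t, ht, h⟩ := h
  refine ⟨t * s, by rw [map_mul]; exact mul_ne_zero ht hs, ?_⟩
  rwa [mul_assoc]

/-- forms `T_j` of degree `ε + 1` with `T(F) = 0`, `T(u) = u`, the derivative of which at `u` has the eigenvectors `b_a` with the eigenvalues `1 - d w_a`;
`l_a` are the linear forms dual to the `b_a` which vanish at `u` -/
structure EulN {m : ℕ} (F : MvPolynomial (Fin (m + 1)) ℂ) (d : ℕ) (u : Fin (m + 1) → ℂ) (w : Fin m → ℂ) (b l : Fin m → Fin (m + 1) → ℂ) (ε : ℕ)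
    (T : Fin (m + 1) → MvPolynomial (Fin (m + 1)) ℂ) : Prop where
  hom : ∀ j, (T j).IsHomogeneous (ε + 1)
  kill : ∑ j, T j * pderiv j F = 0
  val : ∀ j, eval u (T j) = u j
  lu : ∀ a, ∑ j, l a j * u j = 0
  lb : ∀ a a', ∑ j, l a j * b a' j = if a = a' then 1 else 0
  eig : ∀ a j, ∑ k, eval u (pderiv k (T j)) * b a k = (1 - (d : ℂ) * w a) * b a j

/-- no `(m + 1) / d + R`, `R ≥ 1`, is of the form `∑ w_a (α_a + 1)` with `l ^ α` not in the Jacobian ideal at `u` -/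
def NonSpec {m : ℕ} (F : MvPolynomial (Fin (m + 1)) ℂ) (d : ℕ) (u : Fin (m + 1) → ℂ) (w : Fin m → ℂ) (l : Fin m → Fin (m + 1) → ℂ) : Prop :=
  ∀ R : ℕ, 1 ≤ R → ∀ α : Fin m →₀ ℕ,
    (∀ s : MvPolynomial (Fin (m + 1)) ℂ, eval u s ≠ 0 →
      s * ∏ a, (∑ j, C (l a j) * X j) ^ α a ∉ Ideal.span (Set.range fun j => pderiv j F)) →
    (d : ℂ) * ∑ a, w a * ((α a : ℂ) + 1) ≠ d * R + (m + 1)

end Pool.Agent.TCS
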