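import Mathlib
import Pool.Agent.TCS.Defs
import Pool.Agent.TCA.ChartN

/-!
# TCS/ChartS (S3): the chart adapted to the eigenvectors
-/

set_option autoImplicit false

namespace Pool.Agent.TCS

open MvPolynomial Pool.Agent.TCA

variable {m : ℕ} {F : MvPolynomial (Fin (m + 1)) ℂ} {d : ℕ} {p c : Fin (m + 1) → ℂ} {w : Fin m → ℂ} {b l : Fin m → Fin (m + 1) → ℂ} {ε : ℕ}
  {T : Fin (m + 1) → MvPolynomial (Fin (m + 1)) ℂ}

/-- the basis `v_a = b_a - c(b_a) p` of `ker c` -/
def vS (p c : Fin (m + 1) → ℂ) (b : Fin m → Fin (m + 1) → ℂ) : Fin m → Fin (m + 1) → ℂ := fun a j => b a j - (∑ k, c k * b a k) * p j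

theorem cvS (hcp : ∑ j, c j * p j = 1) (a : Fin m) : ∑ j, c j * vS p c b a j = 0 := by
  sorry

/-- the matrix with the columns `v_a, p` is invertible with the inverse `l_a, c` -/
theorem dualS (h : EulN F d p w b l ε T) (hcp : ∑ j, c j * p j = 1) (j j' : Fin (m + 1)) :
    ∑ a, vS p c b a j * l a j' + p j * c j' = if j = j' then (1 : ℂ) else 0 := by
  sorry

theorem psi_l (h : EulN F d p w b l ε T) (a : Fin m) :
    psiN p (vS p c b) (∑ j, C (l a j) * X j) = X a := by
  sorry

/-- `psiN` of a derivative along `ker c` is in the Jacobian ideal of the chart -/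
theorem psi_f (h : EulN F d p w b l ε T) (hcp : ∑ j, c j * p j = 1) (o : Fin (m + 1)) (hco : c o = 1) (j : Fin (m + 1)) :
    psiN p (vS p c b) (pderiv j F - C (c j) * pderiv o F) ∈ Ideal.span (Set.range fun a => pderiv a (psiN p (vS p c b) F)) := by
  sorry

/-- the field `E_a = l_a(T) - X_a c(T)` of the chart vanishes at `0` -/
theorem E_zero (h : EulN F d p w b l ε T) (a : Fin m) :
    constantCoeff (psiN p (vS p c b) (∑ j, C (l a j) * T j) - X a * psiN p (vS p c b) (∑ j, C (c j) * T j)) = 0 := by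
  sorry

/-- and has the diagonal linear part `- d w_a`  (Euler's relation: `∑ p_k ∂_k T_j (p) = (ε + 1) T_j (p) = (ε + 1) p_j`) -/
theorem E_lin (h : EulN F d p w b l ε T) (hcp : ∑ j, c j * p j = 1) (a a' : Fin m) :
    constantCoeff (pderiv a' (psiN p (vS p c b) (∑ j, C (l a j) * T j) - X a * psiN p (vS p c b) (∑ j, C (c j) * T j))) =
      if a = a' then - ((d : ℂ) * w a) else 0 := by
  sorry

theorem cT (h : EulN F d p w b l ε T) (hcp : ∑ j, c j * p j = 1) : constantCoeff (psiN p (vS p c b) (∑ j, C (c j) * T j)) = 1 := by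
  sorry

end Pool.Agent.TCS
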