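import Mathlib
import Pool.Agent.TNC.DefsA
import Pool.Agent.TNF.Defs
import Pool.Agent.TW.Defs

/-!
# TCS/DefsT: tangent cones with isolated singularities
-/

set_option autoImplicit false

namespace Pool.Agent.TCS

open MvPolynomial Pool.Agent.TNC Pool.Agent.T9 Pool.Agent.TY Pool.Agent.TW

/-- **quasi-homogeneous points** `u` of the cone `F = 0`, `F` a form of degree `d`, with the weights `w_a = W_a / e`, `a ≠ i`, in the chart `X_i = u_i`:
`coord`: in polynomial coordinates at `u` over the field `K` the equation of the cone is `q + ` terms of weight `> e`, `q` of weight `e` with an isolated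
critical point;
`euler`: there are forms `T_j` of one degree with `∑ T_j ∂_j F = 0` and `T(u) = u`, such that `dT(u)` has a basis of eigenvectors (the columns of `M`, the
`i`-th is `u`), with the eigenvalue `1 - d w_a` for the column `a ≠ i` (an Euler field of `F` near `u`), and no number `n / d + R`, `R ≥ 1` an integer, is
of the form `∑ w_a (α_a + 1)` with the monomial `y^α` (`y_a` the linear forms given by the rows of `M⁻¹`) outside the Jacobian ideal of `F` at `u`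
(that is, no such number is a spectral number of `F` at `u`) -/
structure QPoint {n : ℕ} (F : MvPolynomial (Fin n) ℂ) (d : ℕ) (K : IntermediateField ℚ ℂ) (i : Fin n) (u : Fin n → ℂ) (W : Fin n → ℕ) (e : ℕ) :
    Prop where
  pos : ∀ j, 0 < W j
  epos : 0 < e
  coord : ∃ (ψ : Fin n → MvPolynomial (Fin n) ℂ) (q r : MvPolynomial (Fin n) ℂ), ψ i = X i ∧ (∀ j, constantCoeff (ψ j) = 0) ∧ (linM ψ).det ≠ 0 ∧
    (∀ j v, coeff v (ψ j) ∈ K) ∧ (∀ j, j ≠ i → ∀ v ∈ (ψ j).support, v i = 0) ∧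
    bind₁ ψ (bind₁ (fun j => C (u j) + if j = i then 0 else X j : Fin n → MvPolynomial (Fin n) ℂ) F) = q + r ∧ WH W e q ∧ WG W e r ∧
    ∀ x : Fin n → ℂ, x ≠ 0 → x i = 0 → ∃ j, j ≠ i ∧ eval x (pderiv j q) ≠ 0
  euler : ∃ (ε : ℕ) (T : Fin n → MvPolynomial (Fin n) ℂ) (M : Matrix (Fin n) (Fin n) ℂ), (∀ j, (T j).IsHomogeneous (ε + 1)) ∧
    ∑ j, T j * pderiv j F = 0 ∧ (∀ j, eval u (T j) = u j) ∧ M.det ≠ 0 ∧ (∀ j, M j i = u j) ∧
    (∀ a, a ≠ i → ∀ j, ∑ k, eval u (pderiv k (T j)) * M k a = (1 - (d : ℂ) * ((W a : ℂ) / e)) * M j a) ∧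
    ∀ R : ℕ, 1 ≤ R → ∀ α : Fin n →₀ ℕ, α i = 0 →
      (∀ s : MvPolynomial (Fin n) ℂ, eval u s ≠ 0 →
        s * ∏ a, (∑ j, C (M⁻¹ a j) * X j) ^ α a ∉ Ideal.span (Set.range fun j => pderiv j F)) →
      d * ∑ a ∈ Finset.univ.erase i, W a * (α a + 1) ≠ e * (d * R + n)

/-- **the condition at `P`**: `f(P + x) = F + G + ` terms of degree `> d + k`, `F ≠ 0` a form of degree `d ≥ 3`, `G` a form of degree `d + k`, `k ≥ 1`, the
projective hypersurface `F = 0` has only isolated singularities `u`, each of them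
* of type `A_i`, `i ≤ j`, with `(n - 2) d ≤ 2 n` and `(j + 1) (2 n + 2 d - n d) ≤ 4 d`, or with `j ≤ 2`, `n d < 2 n + 3 d`, `3 n d ≠ 6 n + 8 d`; or
* quasi-homogeneous (`QPoint`) with the weights `w = W / e`, `G(u) ≠ 0` and `n < k + d + d |w|`;
and `lin`: `d = n`, or every linear vector field which kills `F` has trace zero, or all `u` are of type `A_i`, `i ≤ j`, `(j + 1) (2 n + 2 d - n d) ≤ 2 d` -/
structure IsoCone {n : ℕ} (f : MvPolynomial (Fin n) ℂ) (P : Fin n → ℂ) (d k : ℕ) : Prop where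
  dim : 3 ≤ n
  deg : 3 ≤ d
  kpos : 1 ≤ k
  low : ∀ v ∈ (TNF.shift P f).support, v.degree = d ∨ d + k ≤ v.degree
  ne : homogeneousComponent d (TNF.shift P f) ≠ 0
  fin : ∀ i : Fin n, {u : Fin n → ℂ | u i = 1 ∧ ∀ j, eval u (pderiv j (homogeneousComponent d (TNF.shift P f))) = 0}.Finite
  type : ∀ u : Fin n → ℂ, u ≠ 0 → (∀ j, eval u (pderiv j (homogeneousComponent d (TNF.shift P f))) = 0) →
    (∃ j : ℕ, AType (homogeneousComponent d (TNF.shift P f)) u j ∧
      ((n * d ≤ 2 * n + 2 * d ∧ (j + 1) * (2 * n + 2 * d - n * d) ≤ 4 * d) ∨ (j ≤ 2 ∧ n * d < 2 * n + 3 * d ∧ 3 * n * d ≠ 6 * n + 8 * d))) ∨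
    (eval u (homogeneousComponent (d + k) (TNF.shift P f)) ≠ 0 ∧ ∀ i : Fin n, u i ≠ 0 → ∃ (W : Fin n → ℕ) (e : ℕ),
      QPoint (homogeneousComponent d (TNF.shift P f)) d (IntermediateField.adjoin ℚ (Set.range P ∪ Set.range u)) i u W e ∧
      n * e < k * e + d * e + d * ∑ j ∈ Finset.univ.erase i, W j)
  lin : d = n ∨
    (∀ A : Matrix (Fin n) (Fin n) ℂ, ∑ j, (∑ i, C (A j i) * X i) * pderiv j (homogeneousComponent d (TNF.shift P f)) = 0 → A.trace = 0) ∨
    ∀ u : Fin n → ℂ, u ≠ 0 → (∀ j, eval u (pderiv j (homogeneousComponent d (TNF.shift P f))) = 0) →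
      ∃ j : ℕ, AType (homogeneousComponent d (TNF.shift P f)) u j ∧ ((j : ℤ) + 1) * (2 * n + 2 * d - n * d) ≤ 2 * d

end Pool.Agent.TCS
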