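import Mathlib
import Pool.Agent.TN.KosA
import Pool.Agent.TNC.Kos1

/-!
# TCS/KosS (S2): Koszul exactness at a form with finitely many singular lines, with a generic functional
-/

set_option autoImplicit false

namespace Pool.Agent.TCS

open MvPolynomial Pool.Agent.SMCB Pool.Agent.SMCW Pool.Agent.TY Pool.Agent.TN

/-- Copy of `TNC.koszul_of_loc` (Kos1): the hypothesis `hl` gets in addition the form `q` and `hfq` of that proof. -/
theorem koszul_of_loc2 {n d : ℕ} (F : MvPolynomial (Fin n) ℂ) (hF : F.IsHomogeneous d) (hd : 2 ≤ d)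
    (S : Finset (Fin n → ℂ)) (hS : ∀ u ∈ S, u ≠ 0)
    (hfin : ∀ x : Fin n → ℂ, x ≠ 0 → (∀ j, eval x (pderiv j F) = 0) → ∃ u ∈ S, ∃ t : ℂ, x = t • u)
    (η : Fin n → MvPolynomial (Fin n) ℂ) (h0 : ∑ j, η j * pderiv j F = 0)
    (hl : ∀ (o : Fin n) (c : Fin n → ℂ), c o = 1 → ∀ q : MvPolynomial (Fin n) ℂ, q.IsHomogeneous (d - 1) →
      (∀ x : Fin n → ℂ, (∀ j, eval x (pderiv j F - C (c j) * pderiv o F) = 0) → eval x q = 0 → x = 0) →
      ∀ p : Fin n → ℂ, p ≠ 0 → (∀ j, eval p (pderiv j F) = 0) → ∑ j, c j * p j ≠ 0 →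
      ∃ s : MvPolynomial (Fin n) ℂ, eval p s ≠ 0 ∧
        s * ∑ j, C (c j) * η j ∈ Ideal.span (Set.range fun j => pderiv j F - C (c j) * pderiv o F)) :
    ∃ k : Fin n → Fin n → MvPolynomial (Fin n) ℂ, (∀ i j, k i j = - k j i) ∧ ∀ i, η i = ∑ j, k j i * pderiv j F := by
  sorry

/-- two fields which kill `F`: `A = c(T) η - c(η) T` and its divergence are in the ideal of the derivatives along `ker c`  (`TN.koszul_sub` for the `A_j`, `j ≠ o`) -/
theorem kos_div {n d : ℕ} (F : MvPolynomial (Fin n) ℂ) (hF : F.IsHomogeneous d) (hd : 2 ≤ d) (o : Fin n) (c : Fin n → ℂ) (hco : c o = 1)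
    (q : MvPolynomial (Fin n) ℂ) (hq : q.IsHomogeneous (d - 1))
    (hfq : ∀ x : Fin n → ℂ, (∀ j, eval x (pderiv j F - C (c j) * pderiv o F) = 0) → eval x q = 0 → x = 0)
    (η T : Fin n → MvPolynomial (Fin n) ℂ) (h0 : ∑ j, η j * pderiv j F = 0) (h1 : ∑ j, T j * pderiv j F = 0) :
    (∀ j, (∑ l, C (c l) * T l) * η j - (∑ l, C (c l) * η l) * T j ∈ Ideal.span (Set.range fun j => pderiv j F - C (c j) * pderiv o F)) ∧
      ∑ j, pderiv j ((∑ l, C (c l) * T l) * η j - (∑ l, C (c l) * η l) * T j) ∈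
        Ideal.span (Set.range fun j => pderiv j F - C (c j) * pderiv o F) := by
  sorry

end Pool.Agent.TCS
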