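import Mathlib
import Pool.Agent.TCS.Defs

/-!
# TCS/LocInd (S1): induction on the order in the local algebra
-/

set_option autoImplicit false

namespace Pool.Agent.TCS

open MvPolynomial

variable {m : ℕ}

/-- Proof: `J` is saturated.  By induction on `k`, `H ∈ J + m^k`: `H = j + P`, `P ∈ m^k`, `T(P) = E(P) + g P ∈ J`; modulo `m^(k+1)`, `T` acts on the forms of
degree `k` by `y^α ↦ (∑ α_a λ_a + g(0)) y^α`, and preserves the forms in `J + m^(k+1)` (a finite dimensional space).  Then Krull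
(`Ideal.mem_iInf_smul_pow_eq_bot_iff` for `R / J`): `(1 - r) H ∈ J`, `r ∈ m`. -/
theorem loc_ind (J : Ideal (MvPolynomial (Fin m) ℂ)) (hJ : ∀ s x : MvPolynomial (Fin m) ℂ, constantCoeff s ≠ 0 → s * x ∈ J → x ∈ J)
    (E : Fin m → MvPolynomial (Fin m) ℂ) (E0 : ∀ a, constantCoeff (E a) = 0) (lam : Fin m → ℂ)
    (E1 : ∀ a b, constantCoeff (pderiv b (E a)) = if a = b then lam a else 0) (hE : ∀ x ∈ J, ∑ a, E a * pderiv a x ∈ J)
    (g H : MvPolynomial (Fin m) ℂ) (hH : ∑ a, E a * pderiv a H + g * H ∈ J)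
    (hnr : ∀ α : Fin m →₀ ℕ, monomial α (1 : ℂ) ∉ J → ∑ a, (α a : ℂ) * lam a + constantCoeff g ≠ 0) : H ∈ J := by
  sorry

end Pool.Agent.TCS
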