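import Mathlib
import Pool.Agent.TCS.LocInd
import Pool.Agent.TCS.KosS
import Pool.Agent.TCS.ChartS
import Pool.Agent.TCA.LocN

/-!
# TCS/MemS (S4): the local statement at a quasi-homogeneous point
-/

set_option autoImplicit false

namespace Pool.Agent.TCS

open MvPolynomial Pool.Agent.TCA

variable {m : ℕ}

theorem chart_S (F : MvPolynomial (Fin (m + 1)) ℂ) (d : ℕ) (hF : F.IsHomogeneous d) (hd : 2 ≤ d) (o : Fin (m + 1)) (c : Fin (m + 1) → ℂ) (hco : c o = 1)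
    (q : MvPolynomial (Fin (m + 1)) ℂ) (hq : q.IsHomogeneous (d - 1))
    (hfq : ∀ x : Fin (m + 1) → ℂ, (∀ j, eval x (pderiv j F - C (c j) * pderiv o F) = 0) → eval x q = 0 → x = 0)
    (p : Fin (m + 1) → ℂ) (hcp : ∑ j, c j * p j = 1) (w : Fin m → ℂ) (b l : Fin m → Fin (m + 1) → ℂ) (ε : ℕ)
    (T : Fin (m + 1) → MvPolynomial (Fin (m + 1)) ℂ) (h : EulN F d p w b l ε T) (hn : NonSpec F d p w l) (R : ℕ) (hR : 1 ≤ R)
    (η : Fin (m + 1) → MvPolynomial (Fin (m + 1)) ℂ) (hη : ∀ j, (η j).IsHomogeneous (d * R + 1)) (h0 : ∑ j, η j * pderiv j F = 0)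
    (hdiv : ∑ j, pderiv j (η j) = F ^ R) :
    ∃ (M : ℕ) (S : MvPolynomial (Fin (m + 1)) ℂ), S.IsHomogeneous M ∧ eval p S ≠ 0 ∧
      S * ∑ j, C (c j) * η j ∈ Ideal.span (Set.range fun j => pderiv j F - C (c j) * pderiv o F) := by
  sorry

end Pool.Agent.TCS
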