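import Mathlib
import Pool.Agent.TX.Defs
import Pool.Agent.TC2.Defs

/-!
# TCS/NodeS (S6): the node over a semi-quasi-homogeneous point of the tangent cone at which the next form does not vanish
-/

set_option autoImplicit false

namespace Pool.Agent.TCS

open MvPolynomial Pool.Agent.T9 Pool.Agent.TY Pool.Agent.TW Pool.Agent.TX Pool.Agent.TC2

variable {n : ℕ}

/-- Weights `W'_j = k W_j`, `j ≠ i`, `W'_i = e`, `e' = k e`; `h = q + c X_i^k`, `c = g₂(0)`; no singular zero of `h` outside `X_i = 0` (Euler). -/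
theorem node_S (i : Fin n) (K : IntermediateField ℚ ℂ) (g G₀ g₂ : MvPolynomial (Fin n) ℂ) (d N k : ℕ) (hk : 1 ≤ k) (hg : g = G₀ + X i ^ k * g₂)
    (hg₂ : constantCoeff g₂ ≠ 0) (hcrit : ∀ j, j ≠ i → constantCoeff (pderiv j G₀) = 0) (hG₀ : ∀ v ∈ G₀.support, v i = 0)
    (ψ : Fin n → MvPolynomial (Fin n) ℂ) (W : Fin n → ℕ) (e : ℕ) (q r : MvPolynomial (Fin n) ℂ) (self : ψ i = X i)
    (zero : ∀ j, constantCoeff (ψ j) = 0) (det : (linM ψ).det ≠ 0) (fld : ∀ j v, coeff v (ψ j) ∈ K) (free : ∀ j, j ≠ i → ∀ v ∈ (ψ j).support, v i = 0)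
    (pos : ∀ j, 0 < W j) (epos : 0 < e) (exp : bind₁ ψ G₀ = q + r) (hq : WH W e q) (hr : WG W e r)
    (iso : ∀ x : Fin n → ℂ, x ≠ 0 → x i = 0 → ∃ j, j ≠ i ∧ eval x (pderiv j q) ≠ 0)
    (num : N * e < k * e + d * e + d * ∑ j ∈ Finset.univ.erase i, W j) : Node i K g d N := by
  sorry

end Pool.Agent.TCS
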