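import Mathlib
import Pool.Agent.TCS.MemS
import Pool.Agent.TCA.RootN

/-!
# TCS/RootS (S5): no exceptional relation
-/

set_option autoImplicit false

namespace Pool.Agent.TCS

open MvPolynomial Pool.Agent.TCA Pool.Agent.TNC Pool.Agent.TN

theorem not_exc_S {m : ℕ} (hm : 1 ≤ m) (F : MvPolynomial (Fin (m + 1)) ℂ) (d : ℕ) (hF : F.IsHomogeneous d) (hd : 2 ≤ d)
    (S : Finset (Fin (m + 1) → ℂ)) (hS : ∀ u ∈ S, u ≠ 0)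
    (hfin : ∀ x : Fin (m + 1) → ℂ, x ≠ 0 → (∀ j, eval x (pderiv j F) = 0) → ∃ u ∈ S, ∃ t : ℂ, x = t • u)
    (htype : ∀ u : Fin (m + 1) → ℂ, u ≠ 0 → (∀ j, eval u (pderiv j F) = 0) →
      (∃ k₀, AType F u k₀ ∧ ∀ R : ℕ, 1 ≤ R → ∀ k, 1 ≤ k → k ≤ k₀ → ∀ r < k,
        ((k : ℂ) + 1) * (2 * ((d : ℂ) * R + (m + 1)) - (m - 1) * d) ≠ 2 * d * (r + 1)) ∨
      ∃ (w : Fin m → ℂ) (b l : Fin m → Fin (m + 1) → ℂ) (ε : ℕ) (T : Fin (m + 1) → MvPolynomial (Fin (m + 1)) ℂ),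
        EulN F d u w b l ε T ∧ NonSpec F d u w l)
    (hlin : ∀ A : Matrix (Fin (m + 1)) (Fin (m + 1)) ℂ, ∑ j, linf A j * pderiv j F = 0 → A.trace ≠ 1) :
    ¬ TW.ExcW (fun _ => 1) d F := by
  sorry

end Pool.Agent.TCS
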