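import Mathlib
import Pool.Agent.TCS.DefsT
import Pool.Agent.TCS.RootS
import Pool.Agent.TCS.NodeS
import Pool.Agent.TCA.TowerN

/-!
# TCS/TowerS (S7): a point with the condition `IsoCone` satisfies the condition of the tower theorem
-/

set_option autoImplicit false

namespace Pool.Agent.TCS

open MvPolynomial Pool.Agent.T9 Pool.Agent.TY Pool.Agent.TW Pool.Agent.TX Pool.Agent.TC2 Pool.Agent.TC3 Pool.Agent.TNC Pool.Agent.TN

variable {n : ℕ}

/-- the data of `EulN` and `NonSpec` from `QPoint`: `w_a = W_(i.succAbove a) / e`, `b_a = M (·) (i.succAbove a)`, `l_a = M⁻¹ (i.succAbove a)` -/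
theorem eul_of_q {m : ℕ} {F : MvPolynomial (Fin (m + 1)) ℂ} {d : ℕ} {K : IntermediateField ℚ ℂ} {i : Fin (m + 1)} {u : Fin (m + 1) → ℂ}
    {W : Fin (m + 1) → ℕ} {e : ℕ} (h : QPoint F d K i u W e) :
    ∃ (w : Fin m → ℂ) (b l : Fin m → Fin (m + 1) → ℂ) (ε : ℕ) (T : Fin (m + 1) → MvPolynomial (Fin (m + 1)) ℂ),
      EulN F d u w b l ε T ∧ NonSpec F d u w l := by
  sorry

theorem tower_isoCone (f : MvPolynomial (Fin n) ℚ) (hfin : (T5.Sing f).Finite) (P : Fin n → ℂ) (hP : P ∈ T5.Sing f) (d k : ℕ)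
    (h : IsoCone (map (algebraMap ℚ ℂ) f) P d k) : ∃ θ w e, Tower (map (algebraMap ℚ ℂ) f) P θ w e := by
  sorry

end Pool.Agent.TCS
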